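import Pool.Agent.Lib.MP_23b606_ag.T1.S.Sys

/-! E/Elim1: shifts of Laurent polynomials. -/

set_option autoImplicit false

namespace T1

section shift

variable {M M0 : Type} [AddCommGroup M] [AddCommGroup M0] (ρ : M0 →+ M)
  (hρ : Function.Injective ρ) (a : M) (f : M →₀ ℂ)

theorem sh_inj (hρ : Function.Injective ρ) (a : M) :
    Function.Injective fun m0 : M0 => ρ m0 + a := fun _ _ h => hρ (add_right_cancel h)

/-- The shifted Laurent polynomial `x^(-a) f`, restricted to `M0`. -/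
noncomputable def sh : M0 →₀ ℂ :=
  Finsupp.comapDomain (fun m0 : M0 => ρ m0 + a) f (sh_inj ρ hρ a).injOn

theorem sh_apply (m0 : M0) : sh ρ hρ a f m0 = f (ρ m0 + a) := rfl

theorem mem_supp_sh (m0 : M0) : m0 ∈ (sh ρ hρ a f).support ↔ ρ m0 + a ∈ f.support := by
  rw [Finsupp.mem_support_iff, Finsupp.mem_support_iff, sh_apply]

theorem sh_sum {N : Type} [AddCommMonoid N] (h : ∀ m ∈ f.support, ∃ m0, ρ m0 + a = m)
    (g : M → ℂ → N) : f.sum g = (sh ρ hρ a f).sum fun m0 c => g (ρ m0 + a) c := by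
  refine (Finsupp.sum_comapDomain (fun m0 : M0 => ρ m0 + a) f g ⟨?_, ?_, ?_⟩).symm
  · intro x hx
    exact hx
  · exact (sh_inj ρ hρ a).injOn
  · intro m hm
    obtain ⟨m0, rfl⟩ := h m hm
    exact ⟨m0, hm, rfl⟩

theorem sh_ev {R : Type} [CommRing R] [Algebra ℂ R] (χ : Multiplicative M →* R)
    (h : ∀ m ∈ f.support, ∃ m0, ρ m0 + a = m) :
    ev χ f = χ (Multiplicative.ofAdd a) *
      ev (χ.comp (AddMonoidHom.toMultiplicative ρ)) (sh ρ hρ a f) := by
  unfold ev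
  rw [sh_sum ρ hρ a f h, Finsupp.sum, Finsupp.sum, Finset.mul_sum]
  refine Finset.sum_congr rfl fun m0 _ => ?_
  have h1 : χ (Multiplicative.ofAdd (ρ m0 + a))
      = χ (Multiplicative.ofAdd (ρ m0)) * χ (Multiplicative.ofAdd a) := by
    rw [ofAdd_add, map_mul]
  rw [h1, MonoidHom.comp_apply, AddMonoidHom.toMultiplicative_apply_apply, toAdd_ofAdd]
  ring

theorem sh_dl {R : Type} [CommRing R] [Algebra ℂ R] (χ : Multiplicative M →* R)
    (h : ∀ m ∈ f.support, ∃ m0, ρ m0 + a = m) (n' : M →+ ℤ) :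
    dl χ f n' = χ (Multiplicative.ofAdd a) *
      (dl (χ.comp (AddMonoidHom.toMultiplicative ρ)) (sh ρ hρ a f) (n'.comp ρ) +
        ((n' a : ℤ) : R) * ev (χ.comp (AddMonoidHom.toMultiplicative ρ)) (sh ρ hρ a f)) := by
  unfold ev dl
  rw [sh_sum ρ hρ a f h, Finsupp.sum, Finsupp.sum, Finsupp.sum, Finset.mul_sum,
    ← Finset.sum_add_distrib, Finset.mul_sum]
  refine Finset.sum_congr rfl fun m0 _ => ?_
  have h1 : χ (Multiplicative.ofAdd (ρ m0 + a))
      = χ (Multiplicative.ofAdd (ρ m0)) * χ (Multiplicative.ofAdd a) := by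
    rw [ofAdd_add, map_mul]
  rw [h1, MonoidHom.comp_apply, AddMonoidHom.toMultiplicative_apply_apply, toAdd_ofAdd,
    map_add, AddMonoidHom.comp_apply, Int.cast_add]
  ring

theorem sh_hm (hf : f ≠ 0) (h : ∀ m ∈ f.support, ∃ m0, ρ m0 + a = m) (n : M →+ ℤ) :
    hm f n = hm (sh ρ hρ a f) (n.comp ρ) + n a := by
  obtain ⟨m, hm1, hm2⟩ := exists_eq_hm f hf n
  obtain ⟨m0, rfl⟩ := h m hm1
  have h1 : m0 ∈ (sh ρ hρ a f).support := (mem_supp_sh ρ hρ a f m0).mpr hm1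
  have h2 := hm_le (sh ρ hρ a f) (n.comp ρ) h1
  have hne : sh ρ hρ a f ≠ 0 := by
    intro h0
    rw [h0] at h1
    simp at h1
  obtain ⟨m1, hm3, hm4⟩ := exists_eq_hm (sh ρ hρ a f) hne (n.comp ρ)
  have h3 := hm_le f n ((mem_supp_sh ρ hρ a f m1).mp hm3)
  rw [map_add] at hm2 h3
  rw [AddMonoidHom.comp_apply] at h2 hm4
  omega

end shift

open Module in
theorem el_rank_nullity {V V₂ : Type} [AddCommGroup V] [Module.Free ℤ V] [Module.Finite ℤ V]
    [AddCommGroup V₂] [Module.Free ℤ V₂] [Module.Finite ℤ V₂] (T : V →ₗ[ℤ] V₂) :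
    finrank ℤ (LinearMap.range T) + finrank ℤ (LinearMap.ker T) = finrank ℤ V := by
  rw [← (LinearMap.ker T).finrank_quotient_add_finrank,
    LinearEquiv.finrank_eq (T.quotKerEquivRange)]

end T1
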