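import Pool.Agent.Lib.MP_23b606_ag.T1.E.KK
import Pool.Agent.Lib.MP_23b606_ag.T1.E.Elim1
import Pool.Agent.Lib.MP_23b606_ag.T1.A.VInd

/-! E/Elim: the system on `M_0`. -/

set_option autoImplicit false

namespace T1

/-- The rank of `M_0 = {m : n_j(m) = 0}` is `rank M - (|J| - 1)` for a circuit. -/
theorem finrank_M0 {M : Type} [AddCommGroup M] [Module.Free ℤ M] [Module.Finite ℤ M]
    {ι : Type} [Fintype ι] {f : ι → M →₀ ℂ}
    {J : Type} [Fintype J] {nn : J → M →+ ℤ} {lam : J → ℕ} (hC : Circ f nn lam) :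
    Module.finrank ℤ ↥(⨅ j, LinearMap.ker (nn j).toIntLinearMap) + Fintype.card J
      = Module.finrank ℤ M + 1 ∧ 2 ≤ Fintype.card J := by
  classical
  have hJ : Nonempty J := by
    by_contra hJ
    rw [not_nonempty_iff] at hJ
    have := hC.idx
    simp at this
  obtain ⟨j0⟩ := hJ
  have hcard : 2 ≤ Fintype.card J := by
    by_contra hlt
    have h1 : Fintype.card J ≤ 1 := by omega
    have h2 : Subsingleton J := Fintype.card_le_one_iff_subsingleton.mp h1
    have h3 : ∑ j, lam j • nn j = lam j0 • nn j0 := by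
      rw [Fintype.sum_eq_single j0]
      intro j hj
      exact absurd (Subsingleton.elim j j0) hj
    rw [hC.rel] at h3
    apply hC.ne j0
    ext m
    have h4 := DFunLike.congr_fun h3 m
    rw [AddMonoidHom.zero_apply, AddMonoidHom.smul_apply, nsmul_eq_mul] at h4
    have h5 := hC.pos j0
    rcases mul_eq_zero.mp h4.symm with h6 | h6
    · exfalso
      have : lam j0 = 0 := by exact_mod_cast h6
      omega
    · exact h6
  refine ⟨?_, hcard⟩
  set T : M →ₗ[ℤ] (J → ℤ) := LinearMap.pi fun j => (nn j).toIntLinearMap with hT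
  have hker : LinearMap.ker T = ⨅ j, LinearMap.ker (nn j).toIntLinearMap := by
    rw [hT, LinearMap.ker_pi]
  have hrn := el_rank_nullity T
  rw [hker] at hrn
  -- upper bound
  have hup : Module.finrank ℤ (LinearMap.range T) + 1 ≤ Fintype.card J := by
    set ψ : (J → ℤ) →ₗ[ℤ] ℤ := ∑ j, (lam j : ℤ) • LinearMap.proj j with hψ
    have h1 := el_rank_nullity ψ
    rw [Module.finrank_fintype_fun_eq_card] at h1
    have h2 : LinearMap.range T ≤ LinearMap.ker ψ := by
      rintro _ ⟨m, rfl⟩
      rw [LinearMap.mem_ker, hψ]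
      have h3 := DFunLike.congr_fun hC.rel m
      simp only [AddMonoidHom.finsetSum_apply, AddMonoidHom.smul_apply, nsmul_eq_mul,
        AddMonoidHom.zero_apply] at h3
      simp only [LinearMap.sum_apply, LinearMap.smul_apply, LinearMap.proj_apply, hT,
        LinearMap.pi_apply, smul_eq_mul]
      exact h3
    have h4 := Submodule.finrank_mono h2
    have h5 : Module.finrank ℤ (LinearMap.range ψ) ≠ 0 := by
      intro h6
      rw [Submodule.finrank_eq_zero, LinearMap.range_eq_bot] at h6
      have h7 := LinearMap.congr_fun h6 (Pi.single j0 1)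
      rw [hψ] at h7
      simp only [LinearMap.sum_apply, LinearMap.smul_apply, LinearMap.proj_apply, smul_eq_mul,
        LinearMap.zero_apply] at h7
      rw [Fintype.sum_eq_single j0 (by
        intro j hj
        rw [Pi.single_eq_of_ne hj, mul_zero])] at h7
      rw [Pi.single_eq_same, mul_one] at h7
      have h8 := hC.pos j0
      have : lam j0 = 0 := by exact_mod_cast h7
      omega
    omega
  -- lower bound
  have hlow : Fintype.card J ≤ Module.finrank ℤ (LinearMap.range T) + 1 := by
    set φ : (J → ℤ) →ₗ[ℤ] (↥(LinearMap.range T) →ₗ[ℤ] ℤ) :=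
      Fintype.linearCombination ℤ
        (fun j => (LinearMap.proj j : (J → ℤ) →ₗ[ℤ] ℤ).comp (LinearMap.range T).subtype) with hφ
    have h1 := el_rank_nullity φ
    rw [Module.finrank_fintype_fun_eq_card] at h1
    have h2 : Module.finrank ℤ (LinearMap.range φ) ≤ Module.finrank ℤ (LinearMap.range T) := by
      have h3 := Submodule.finrank_le (LinearMap.range φ)
      rw [Module.finrank_linearMap, Module.finrank_self, mul_one] at h3
      exact h3
    have h4 : Module.finrank ℤ (LinearMap.ker φ) ≤ 1 := by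
      have h5 : LinearMap.ker φ ≤ Submodule.span ℤ {fun j => (lam j : ℤ)} := by
        intro μ hμ
        rw [LinearMap.mem_ker] at hμ
        have h6 : ∑ j, μ j • nn j = 0 := by
          ext m
          have h7 := LinearMap.congr_fun hμ ⟨T m, ⟨m, rfl⟩⟩
          rw [hφ, Fintype.linearCombination_apply] at h7
          simp only [LinearMap.sum_apply, LinearMap.smul_apply, LinearMap.comp_apply,
            Submodule.subtype_apply, LinearMap.proj_apply, LinearMap.zero_apply, hT,
            LinearMap.pi_apply] at h7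
          simp only [AddMonoidHom.finsetSum_apply, AddMonoidHom.smul_apply,
            AddMonoidHom.zero_apply]
          exact h7
        obtain ⟨c, hc⟩ := hC.prim μ h6
        rw [Submodule.mem_span_singleton]
        refine ⟨c, ?_⟩
        ext j
        rw [hc j]
        rfl
      have h6 := Submodule.finrank_mono h5
      have h7 := finrank_span_le_card (R := ℤ) ({fun j => (lam j : ℤ)} : Set (J → ℤ))
      simp only [Set.toFinset_singleton, Finset.card_singleton] at h7
      omega
    omega
  omega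

theorem elim {M : Type} [AddCommGroup M] [Module.Free ℤ M] [Module.Finite ℤ M]
    {K : Type} [Field K] [Algebra ℂ K] {ι : Type} [Fintype ι] {f : ι → M →₀ ℂ}
    (χ : Multiplicative M →* K) (hG : Good f χ) {n : ℕ} (hχ : Pt f χ n)
    {J : Type} [Fintype J] {nn : J → M →+ ℤ} {lam : J → ℕ} (hC : Circ f nn lam)
    (hcount : ∀ w, 1 ≤ w →
      Nat.card {j // lam j = w} = Nat.card {i // dd (f i) nn lam = w} + if w = 1 then 1 else 0)
    (hgen : IntermediateField.adjoin ℂ
      {x : K | ∃ m : M, (∀ j, nn j m = 0) ∧ x = χ (Multiplicative.ofAdd m)} = ⊤) :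
    ∃ (M0 : Type) (_ : AddCommGroup M0) (_ : Module.Free ℤ M0) (_ : Module.Finite ℤ M0)
      (ι0 : Type) (_ : Fintype ι0) (f0 : ι0 → M0 →₀ ℂ) (χ0 : Multiplicative M0 →* K),
      Good f0 χ0 ∧ Pt f0 χ0 n ∧ Module.finrank ℤ M0 < Module.finrank ℤ M := by
  classical
  obtain ⟨hM0, hJ2⟩ := finrank_M0 hC
  set S0 : Submodule ℤ M := ⨅ j, LinearMap.ker (nn j).toIntLinearMap with hS0
  have hmem : ∀ m : M, m ∈ S0 ↔ ∀ j, nn j m = 0 := by
    intro m
    rw [hS0, Submodule.mem_iInf]
    rfl
  let ρ : S0 →+ M := S0.subtype.toAddMonoidHom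
  have hρ : Function.Injective ρ := Subtype.val_injective
  let χ0 : Multiplicative S0 →* K := χ.comp (AddMonoidHom.toMultiplicative ρ)
  have hne : ∀ i, f i ≠ 0 := ne_zero_of_ind χ hG.ind
  have hex : ∀ i, ∃ m, m ∈ (f i).support := fun i => Finsupp.support_nonempty_iff.mpr (hne i)
  choose a ha using hex
  let ι0 : Type := {i // dd (f i) nn lam = 0}
  let f0 : ι0 → S0 →₀ ℂ := fun i => sh ρ hρ (a i.1) (f i.1)
  have hsh : ∀ i : ι0, ∀ m ∈ (f i.1).support, ∃ m0, ρ m0 + a i.1 = m := by
    intro i m hm
    have h1 := (dd_eq_zero_iff (f i.1) nn lam hC.pos hC.rel).mp i.2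
    have h2 : m - a i.1 ∈ S0 := by
      rw [hmem]
      intro j
      rw [map_sub, h1 m hm j, h1 (a i.1) (ha i.1) j, sub_self]
    exact ⟨⟨m - a i.1, h2⟩, sub_add_cancel _ _⟩
  have hχa : ∀ m : M, χ (Multiplicative.ofAdd m) ≠ 0 := by
    intro m h0
    have h1 : χ (Multiplicative.ofAdd m) * χ (Multiplicative.ofAdd (-m)) = 1 := by
      rw [← map_mul, ← ofAdd_add, add_neg_cancel, ofAdd_zero, map_one]
    rw [h0, zero_mul] at h1
    exact zero_ne_one h1
  have hz0 : ∀ i : ι0, ev χ0 (f0 i) = 0 := by
    intro i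
    have h1 := sh_ev ρ hρ (a i.1) (f i.1) χ (hsh i)
    rw [hχ.zero] at h1
    rcases mul_eq_zero.mp h1.symm with h2 | h2
    · exact absurd h2 (hχa _)
    · exact h2
  have hdl : ∀ (i : ι0) (n' : M →+ ℤ), dl χ (f i.1) n'
      = χ (Multiplicative.ofAdd (a i.1)) * dl χ0 (f0 i) (n'.comp ρ) := by
    intro i n'
    have h1 := sh_dl ρ hρ (a i.1) (f i.1) χ (hsh i) n'
    rw [h1]
    have h2 : ev (χ.comp (AddMonoidHom.toMultiplicative ρ)) (sh ρ hρ (a i.1) (f i.1)) = 0 :=
      hz0 i
    rw [h2, mul_zero, add_zero]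
  refine ⟨S0, inferInstance, inferInstance, inferInstance, ι0, inferInstance, f0, χ0,
    ⟨?_, ?_⟩, ⟨?_, hz0, hχ.trd, ?_⟩, ?_⟩
  · -- independence
    rw [Fintype.linearIndependent_iff]
    intro c hc i
    have h1 : LinearIndependent K fun i : ι0 => dl χ (f i.1) :=
      hG.ind.comp (fun i : ι0 => i.1) Subtype.val_injective
    rw [Fintype.linearIndependent_iff] at h1
    have h2 := h1 (fun i => c i * (χ (Multiplicative.ofAdd (a i.1)))⁻¹) (by
      funext n'
      have h3 := congrFun hc (n'.comp ρ)
      rw [Finset.sum_apply, Pi.zero_apply] at h3 ⊢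
      rw [← h3]
      refine Finset.sum_congr rfl fun i _ => ?_
      rw [Pi.smul_apply, Pi.smul_apply, smul_eq_mul, smul_eq_mul, hdl i n']
      have h4 := hχa (a i.1)
      field_simp) i
    rcases mul_eq_zero.mp h2 with h3 | h3
    · exact h3
    · exact absurd h3 (inv_ne_zero (hχa _))
  · -- valuative independence
    intro O V hO c i hci
    let c' : ι → K := fun j => if h : dd (f j) nn lam = 0 then
      c ⟨j, h⟩ * (χ (Multiplicative.ofAdd (a j)))⁻¹ else 0
    have hc' : ∀ j : ι0, c' j.1 = c j * (χ (Multiplicative.ofAdd (a j.1)))⁻¹ := by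
      intro j
      show (if h : dd (f j.1) nn lam = 0 then
        c ⟨j.1, h⟩ * (χ (Multiplicative.ofAdd (a j.1)))⁻¹ else 0) = _
      rw [dif_pos j.2]
    have hsum : ∀ n' : M →+ ℤ, ∑ j, c' j * dl χ (f j) n'
        = ∑ j : ι0, c j * dl χ0 (f0 j) (n'.comp ρ) := by
      intro n'
      have h1 : ∑ j : ι0, c j * dl χ0 (f0 j) (n'.comp ρ)
          = ∑ j : ι0, c' j.1 * dl χ (f j.1) n' := by
        refine Finset.sum_congr rfl fun j _ => ?_
        rw [hc' j, hdl j n']
        have h4 := hχa (a j.1)
        field_simp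
      rw [h1]
      rw [← Fintype.sum_subtype_add_sum_subtype (fun j => dd (f j) nn lam = 0)
        fun j => c' j * dl χ (f j) n']
      rw [Finset.sum_eq_zero (s := (Finset.univ : Finset {j // ¬ dd (f j) nn lam = 0})), add_zero]
      intro j _
      show (if h : dd (f j.1) nn lam = 0 then
        c ⟨j.1, h⟩ * (χ (Multiplicative.ofAdd (a j.1)))⁻¹ else 0) * _ = 0
      rw [dif_neg j.2, zero_mul]
    obtain ⟨n', hn1, hn2⟩ := hG.vind O V hO c' i.1 (by
      rw [hc' i]
      exact mul_ne_zero hci (inv_ne_zero (hχa _)))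
    refine ⟨n'.comp ρ, ?_, ?_⟩
    · rw [← hsum]
      exact hn1
    · rw [← hsum]
      refine hn2.trans (le_of_eq ?_)
      rw [hc' i, V.mul _ _ hci (inv_ne_zero (hχa _)), V.inv (hχa _)]
      rw [sh_hm ρ hρ (a i.1) (f i.1) (hne i.1) (hsh i) (V.nu χ)]
      have h1 : (V.nu χ) (a i.1) = V.v (χ (Multiplicative.ofAdd (a i.1))) := rfl
      have h2 : (V.nu χ).comp ρ = V.nu χ0 := rfl
      rw [h1, h2]
      show V.v (c i) + -V.v (χ (Multiplicative.ofAdd (a i.1)))
        + (hm (f0 i) (V.nu χ0) + V.v (χ (Multiplicative.ofAdd (a i.1)))) = _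
      ring
  · -- generation
    rw [eq_top_iff, ← hgen, IntermediateField.adjoin_le_iff]
    rintro x ⟨m, hm, rfl⟩
    apply IntermediateField.subset_adjoin
    exact ⟨Multiplicative.ofAdd ⟨m, (hmem m).mpr hm⟩, rfl⟩
  · -- dimension
    have hι : Fintype.card ι + 1 = Fintype.card ι0 + Fintype.card J := by
      set N : ℕ := 1 + ∑ j, lam j + ∑ i, dd (f i) nn lam with hN
      have hlamN : ∀ j, lam j ≤ N := by
        intro j
        have h1 := Finset.single_le_sum (f := lam) (fun j _ => Nat.zero_le _) (Finset.mem_univ j)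
        omega
      have hdN : ∀ i, dd (f i) nn lam ≤ N := by
        intro i
        have h1 := Finset.single_le_sum (f := fun i => dd (f i) nn lam)
          (fun j _ => Nat.zero_le _) (Finset.mem_univ i)
        omega
      have hJc : Fintype.card J
          = ∑ w ∈ Finset.Icc 1 N, (Finset.univ.filter fun j => lam j = w).card := by
        rw [← Finset.card_univ]
        apply Finset.card_eq_sum_card_fiberwise
        intro j _
        exact Finset.mem_coe.mpr (Finset.mem_Icc.mpr ⟨hC.pos j, hlamN j⟩)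
      have hic : Fintype.card ι = Fintype.card ι0
          + ∑ w ∈ Finset.Icc 1 N, (Finset.univ.filter fun i => dd (f i) nn lam = w).card := by
        have h1 : Fintype.card ι = ∑ w ∈ Finset.range (N + 1),
            (Finset.univ.filter fun i => dd (f i) nn lam = w).card := by
          rw [← Finset.card_univ]
          apply Finset.card_eq_sum_card_fiberwise
          intro i _
          exact Finset.mem_coe.mpr (Finset.mem_range.mpr (Nat.lt_succ_of_le (hdN i)))
        have h2 : Finset.range (N + 1) = insert 0 (Finset.Icc 1 N) := by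
          ext w
          simp only [Finset.mem_range, Finset.mem_insert, Finset.mem_Icc]
          omega
        rw [h1, h2, Finset.sum_insert (by simp)]
        congr 1
        rw [← Fintype.card_subtype]
      have hc2 : ∀ w ∈ Finset.Icc 1 N, (Finset.univ.filter fun j => lam j = w).card
          = (Finset.univ.filter fun i => dd (f i) nn lam = w).card + if w = 1 then 1 else 0 := by
        intro w hw
        have h1 := hcount w (Finset.mem_Icc.mp hw).1
        rw [Nat.card_eq_fintype_card, Nat.card_eq_fintype_card, Fintype.card_subtype,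
          Fintype.card_subtype] at h1
        exact h1
      rw [Finset.sum_congr rfl hc2, Finset.sum_add_distrib, Finset.sum_ite_eq'] at hJc
      have h1N : 1 ∈ Finset.Icc 1 N := Finset.mem_Icc.mpr ⟨le_refl _, by omega⟩
      rw [if_pos h1N] at hJc
      omega
    have := hχ.dim
    omega
  · omega

end T1
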