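import Pool.Agent.Lib.MP_23b606_ag.T1.Defs

/-! E/Char: extension of characters (divisibility). -/

set_option autoImplicit false

namespace T1

private theorem Char_root {L : Type} [Field L] [IsAlgClosed L] (u : Additive Lˣ) (a : ℤ)
    (ha : a ≠ 0) : ∃ c : Additive Lˣ, a • c = u := by
  have hn : 0 < a.natAbs := Int.natAbs_pos.2 ha
  obtain ⟨z, hz⟩ := IsAlgClosed.exists_pow_nat_eq ((Additive.toMul u : Lˣ) : L) hn
  have hz0 : z ≠ 0 := by
    rintro rfl
    rw [zero_pow hn.ne'] at hz
    exact (Additive.toMul u).ne_zero hz.symm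
  have h1 : a.natAbs • Additive.ofMul (Units.mk0 z hz0) = u := by
    apply Additive.toMul.injective
    rw [toMul_nsmul]
    apply Units.ext
    simpa using hz
  rcases Int.natAbs_eq a with h | h
  · refine ⟨Additive.ofMul (Units.mk0 z hz0), ?_⟩
    rw [h, natCast_zsmul]
    exact h1
  · refine ⟨-Additive.ofMul (Units.mk0 z hz0), ?_⟩
    rw [h, neg_smul, smul_neg, neg_neg, natCast_zsmul]
    exact h1

theorem exists_char {M : Type} [AddCommGroup M] [Module.Free ℤ M] [Module.Finite ℤ M]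
    {L : Type} [Field L] [IsAlgClosed L] {J : Type} [Fintype J] (nn : J → M →+ ℤ)
    (θ : Multiplicative M →* L)
    (h : ∀ m : M, (∀ j, nn j m = 0) → θ (Multiplicative.ofAdd m) = 1) :
    ∃ y : J → L, (∀ j, y j ≠ 0) ∧ ∀ m : M, θ (Multiplicative.ofAdd m) = ∏ j, y j ^ (nn j m) := by
  classical
  let φ : Multiplicative M →* Lˣ := θ.toHomUnits
  have hφ : ∀ x, ((φ x : Lˣ) : L) = θ x := fun x => rfl
  let ψ : M →ₗ[ℤ] Additive Lˣ := AddMonoidHom.toIntLinearMap
    (AddMonoidHom.mk' (fun m => Additive.ofMul (φ (Multiplicative.ofAdd m)))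
      (fun a b => by rw [ofAdd_add, map_mul, ofMul_mul]))
  have hψ : ∀ m, ψ m = Additive.ofMul (φ (Multiplicative.ofAdd m)) := fun m => rfl
  let N : M →ₗ[ℤ] (J → ℤ) := LinearMap.pi fun j => (nn j).toIntLinearMap
  have hN : ∀ m j, N m j = nn j m := fun m j => rfl
  have hker : ∀ m, N m = 0 → ψ m = 0 := by
    intro m hm
    rw [hψ]
    have h1 := h m (fun j => by rw [← hN, hm]; rfl)
    have h2 : φ (Multiplicative.ofAdd m) = 1 := Units.ext (by rw [hφ, h1]; rfl)
    rw [h2, ofMul_one]
  obtain ⟨n, snf⟩ := (LinearMap.range N).smithNormalForm (Pi.basisFun ℤ J)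
  have hsec : ∀ i : Fin n, ∃ m : M, N m = (snf.bN i : J → ℤ) := fun i => (snf.bN i).2
  choose ms hms using hsec
  have ha : ∀ i, snf.a i ≠ 0 := by
    intro i hi
    have h1 := snf.snf i
    rw [hi, zero_smul] at h1
    exact snf.bN.ne_zero i (Subtype.ext h1)
  have hroot : ∀ i, ∃ c : Additive Lˣ, snf.a i • c = ψ (ms i) := fun i => Char_root _ _ (ha i)
  choose cs hcs using hroot
  let c : J → Additive Lˣ := fun k => if hk : ∃ i, snf.f i = k then cs hk.choose else 0
  have hc : ∀ i, c (snf.f i) = cs i := by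
    intro i
    have hk : ∃ i', snf.f i' = snf.f i := ⟨i, rfl⟩
    have h1 : c (snf.f i) = cs hk.choose := dif_pos hk
    rw [h1, snf.f.injective hk.choose_spec]
  let χ : (J → ℤ) →ₗ[ℤ] Additive Lˣ := snf.bM.constr ℤ c
  let s : LinearMap.range N →ₗ[ℤ] M := snf.bN.constr ℤ ms
  have h1 : ψ.comp s = χ.comp (LinearMap.range N).subtype := by
    apply snf.bN.ext
    intro i
    rw [LinearMap.comp_apply, LinearMap.comp_apply, Module.Basis.constr_basis,
      Submodule.subtype_apply, snf.snf i, map_smul, Module.Basis.constr_basis, hc, hcs]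
  have h2 : N.comp s = (LinearMap.range N).subtype := by
    apply snf.bN.ext
    intro i
    rw [LinearMap.comp_apply, Module.Basis.constr_basis, hms, Submodule.subtype_apply]
  have h3 : ∀ m, ψ m = χ (N m) := by
    intro m
    have e1 := LinearMap.congr_fun h1 ⟨N m, m, rfl⟩
    have e2 := LinearMap.congr_fun h2 ⟨N m, m, rfl⟩
    rw [LinearMap.comp_apply, LinearMap.comp_apply, Submodule.subtype_apply] at e1
    rw [LinearMap.comp_apply, Submodule.subtype_apply] at e2
    rw [← e1]
    have e3 := hker (m - s ⟨N m, m, rfl⟩) (by rw [map_sub, e2, sub_self])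
    rw [map_sub, sub_eq_zero] at e3
    exact e3
  refine ⟨fun j => ((Additive.toMul (χ (Pi.single j 1)) : Lˣ) : L), fun j => Units.ne_zero _, ?_⟩
  intro m
  have h4 : N m = ∑ j, nn j m • (Pi.single j 1 : J → ℤ) := by
    ext k
    simp [hN, Finset.sum_apply, Pi.single_apply]
  have h5 : ψ m = ∑ j, nn j m • χ (Pi.single j 1) := by
    rw [h3, h4, map_sum]
    simp only [map_smul]
  rw [← hφ]
  have h6 : φ (Multiplicative.ofAdd m) = Additive.toMul (ψ m) := rfl
  rw [h6, h5, toMul_sum, Units.coe_prod]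
  apply Finset.prod_congr rfl
  intro j _
  rw [toMul_zsmul, Units.val_zpow_eq_zpow_val]

end T1
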