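import Pool.Agent.Lib.MP_23b606_ag.T1.E.Char
import Pool.Agent.Lib.MP_23b606_ag.T1.S.Sys

/-! E/KK: if the system has only the zeros `(c^λ_j)` then `K` is generated by the values of `χ` on
`M_0 = {m : n_j(m) = 0 for all j}`. -/

set_option autoImplicit false

namespace T1

private theorem kk_prod {L : Type} [Field L] {J : Type} (c : L) (hc : c ≠ 0) (s : Finset J)
    (g : J → ℤ) : ∏ j ∈ s, c ^ (g j) = c ^ (∑ j ∈ s, g j) := by
  classical
  induction s using Finset.induction_on with
  | empty => simp
  | insert a s ha ih => rw [Finset.prod_insert ha, Finset.sum_insert ha, ih, zpow_add₀ hc]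

/-- A character which agrees with `χ'` on `M_0` and is a zero of the `f i` is `χ'`. -/
private theorem kk_unique {M : Type} [AddCommGroup M] [Module.Free ℤ M] [Module.Finite ℤ M]
    {L : Type} [Field L] [IsAlgClosed L] [Algebra ℂ L] {ι : Type} [Fintype ι] {f : ι → M →₀ ℂ}
    {J : Type} [Fintype J] {nn : J → M →+ ℤ} {lam : J → ℕ} (hC : Circ f nn lam)
    (χ' : Multiplicative M →* L)
    (huniq : ∀ y : J → L,
      (∀ i, MvPolynomial.eval y (Fp χ' nn (f i)) = 0) → ∃ c, ∀ j, y j = c ^ lam j)
    (θ : Multiplicative M →* L)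
    (h0 : ∀ m : M, (∀ j, nn j m = 0) →
      θ (Multiplicative.ofAdd m) = χ' (Multiplicative.ofAdd m))
    (hz : ∀ i, ev θ (f i) = 0) (m : M) :
    θ (Multiplicative.ofAdd m) = χ' (Multiplicative.ofAdd m) := by
  have hinv : ∀ m : Multiplicative M, χ' m * χ' m⁻¹ = 1 := by
    intro m
    rw [← map_mul, mul_inv_cancel, map_one]
  obtain ⟨y, hy0, hy⟩ := exists_char nn (θ * χ'.comp invMonoidHom) (by
    intro m hm
    simp only [MonoidHom.mul_apply, MonoidHom.comp_apply, invMonoidHom_apply]
    rw [h0 m hm, hinv])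
  have hθ : ∀ m : M, θ (Multiplicative.ofAdd m)
      = algebraMap L L (χ' (Multiplicative.ofAdd m)) * ∏ j, y j ^ (nn j m) := by
    intro m
    rw [← hy m, Algebra.algebraMap_self, RingHom.id_apply]
    simp only [MonoidHom.mul_apply, MonoidHom.comp_apply, invMonoidHom_apply]
    have := hinv (Multiplicative.ofAdd m)
    linear_combination (-θ (Multiplicative.ofAdd m)) * this
  have hF : ∀ i, MvPolynomial.eval y (Fp χ' nn (f i)) = 0 := by
    intro i
    have h1 := ev_twist χ' (f i) nn y hy0 θ hθ
    rw [hz i] at h1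
    have h2 : (∏ j, y j ^ hm (f i) (nn j)) ≠ 0 :=
      Finset.prod_ne_zero_iff.mpr fun j _ => zpow_ne_zero _ (hy0 j)
    have h3 : MvPolynomial.aeval y (Fp χ' nn (f i)) = 0 := by
      rcases mul_eq_zero.mp h1.symm with h | h
      · exact absurd h h2
      · exact h
    rw [← h3, MvPolynomial.aeval_eq_eval]
  obtain ⟨c, hc⟩ := huniq y hF
  have hprod : ∏ j, y j ^ (nn j m) = 1 := by
    rcases isEmpty_or_nonempty J with hJ | ⟨⟨j0⟩⟩
    · simp
    · have hc0 : c ≠ 0 := by
        rintro rfl
        apply hy0 j0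
        rw [hc j0, zero_pow]
        have := hC.pos j0
        omega
      have h1 : ∀ j, y j ^ (nn j m) = c ^ ((lam j : ℤ) * nn j m) := by
        intro j
        rw [hc j, zpow_mul, zpow_natCast]
      rw [Finset.prod_congr rfl fun j _ => h1 j, kk_prod c hc0]
      have h2 : ∑ j, (lam j : ℤ) * nn j m = 0 := by
        have h3 := DFunLike.congr_fun hC.rel m
        simp only [AddMonoidHom.finsetSum_apply, AddMonoidHom.smul_apply, nsmul_eq_mul,
          AddMonoidHom.zero_apply] at h3
        exact h3
      rw [h2, zpow_zero]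
  rw [hθ m, hprod, mul_one, Algebra.algebraMap_self, RingHom.id_apply]

/-- A point of `k[χ(M)]` with algebraic values. -/
private theorem kk_point {M : Type} [AddCommGroup M] [Module.Finite ℤ M]
    {k K L : Type} [Field k] [Field K] [Algebra k K] [Field L] [IsAlgClosed L] [Algebra k L]
    (χ : Multiplicative M →* K) (B : Subalgebra k K)
    (hB : B = Algebra.adjoin k (Set.range χ)) :
    ∃ φ : B →ₐ[k] L, ∀ b, IsAlgebraic k (φ b) := by
  classical
  have hfg : B.FG := by
    have h1 : AddGroup.FG M := Module.Finite.iff_addGroup_fg.mp inferInstance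
    have h2 : Monoid.FG (Multiplicative M) := inferInstance
    obtain ⟨S, hS⟩ := (Monoid.fg_def (M := Multiplicative M)).mp h2
    refine ⟨S.image χ, ?_⟩
    rw [hB]
    apply le_antisymm
    · apply Algebra.adjoin_mono
      intro x hx
      simp only [Finset.coe_image, Set.mem_image, Finset.mem_coe] at hx
      obtain ⟨a, -, rfl⟩ := hx
      exact ⟨a, rfl⟩
    · apply Algebra.adjoin_le
      rintro x ⟨a, rfl⟩
      have ha : a ∈ Submonoid.closure (S : Set (Multiplicative M)) := by
        rw [hS]; trivial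
      induction ha using Submonoid.closure_induction with
      | mem x hx =>
        apply Algebra.subset_adjoin
        simp only [Finset.coe_image, Set.mem_image, Finset.mem_coe]
        exact ⟨x, hx, rfl⟩
      | one => rw [map_one]; exact one_mem _
      | mul x y _ _ hx hy => rw [map_mul]; exact mul_mem hx hy
  have : Algebra.FiniteType k B := (Subalgebra.fg_iff_finiteType B).mp hfg
  obtain ⟨I, hI⟩ := Ideal.exists_maximal B
  let : Field (B ⧸ I) := Ideal.Quotient.field I
  have : Algebra.FiniteType k (B ⧸ I) :=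
    Algebra.FiniteType.of_surjective (Ideal.Quotient.mkₐ k I) (Ideal.Quotient.mkₐ_surjective k I)
  have : Module.Finite k (B ⧸ I) := finite_of_finite_type_of_isJacobsonRing k (B ⧸ I)
  have : Algebra.IsAlgebraic k (B ⧸ I) := Algebra.IsAlgebraic.of_finite k (B ⧸ I)
  let ψ : (B ⧸ I) →ₐ[k] L := IsAlgClosed.lift
  refine ⟨ψ.comp (Ideal.Quotient.mkₐ k I), ?_⟩
  intro b
  have h1 : IsAlgebraic k (Ideal.Quotient.mkₐ k I b) := Algebra.IsAlgebraic.isAlgebraic _
  exact h1.algHom ψ

theorem adjoin_eq_top {M : Type} [AddCommGroup M] [Module.Free ℤ M] [Module.Finite ℤ M]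
    {K : Type} [Field K] [Algebra ℂ K] {ι : Type} [Fintype ι] {f : ι → M →₀ ℂ}
    (χ : Multiplicative M →* K) (hgen : IntermediateField.adjoin ℂ (Set.range χ) = ⊤)
    (hzero : ∀ i, ev χ (f i) = 0)
    {J : Type} [Fintype J] {nn : J → M →+ ℤ} {lam : J → ℕ} (hC : Circ f nn lam)
    (χ' : Multiplicative M →* AlgebraicClosure K)
    (hχ' : ∀ m, χ' m = algebraMap K (AlgebraicClosure K) (χ m))
    (huniq : ∀ y : J → AlgebraicClosure K,
      (∀ i, MvPolynomial.eval y (Fp χ' nn (f i)) = 0) → ∃ c, ∀ j, y j = c ^ lam j) :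
    IntermediateField.adjoin ℂ
      {x : K | ∃ m : M, (∀ j, nn j m = 0) ∧ x = χ (Multiplicative.ofAdd m)} = ⊤ := by
  classical
  set K0 : IntermediateField ℂ K := IntermediateField.adjoin ℂ
      {x : K | ∃ m : M, (∀ j, nn j m = 0) ∧ x = χ (Multiplicative.ofAdd m)} with hK0
  have hmem : ∀ m : M, (∀ j, nn j m = 0) → χ (Multiplicative.ofAdd m) ∈ K0 := by
    intro m hm
    exact IntermediateField.subset_adjoin ℂ _ ⟨m, hm, rfl⟩
  -- the values of `χ` are algebraic over `K0`
  have halg : ∀ m : M, IsAlgebraic K0 (χ (Multiplicative.ofAdd m)) := by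
    intro m
    let B : Subalgebra K0 K := Algebra.adjoin K0 (Set.range χ)
    have hχB : ∀ a, χ a ∈ B := fun a => Algebra.subset_adjoin ⟨a, rfl⟩
    obtain ⟨φ, hφ⟩ := kk_point (L := AlgebraicClosure K) χ B rfl
    let θ : Multiplicative M →* AlgebraicClosure K :=
      (φ : B →* AlgebraicClosure K).comp (χ.codRestrict B.toSubmonoid hχB)
    have hθ : ∀ a, θ a = φ ⟨χ a, hχB a⟩ := fun a => rfl
    have h0 : ∀ m : M, (∀ j, nn j m = 0) →
        θ (Multiplicative.ofAdd m) = χ' (Multiplicative.ofAdd m) := by
      intro m hm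
      rw [hθ, hχ']
      have : (⟨χ (Multiplicative.ofAdd m), hχB _⟩ : B)
          = algebraMap K0 B ⟨χ (Multiplicative.ofAdd m), hmem m hm⟩ := rfl
      rw [this, AlgHom.commutes]
      rfl
    have hz : ∀ i, ev θ (f i) = 0 := by
      intro i
      have h1 : ∑ m ∈ (f i).support, (algebraMap K0 B (algebraMap ℂ K0 (f i m)) *
          ⟨χ (Multiplicative.ofAdd m), hχB _⟩ : B) = 0 := by
        apply Subtype.ext
        have h2 := hzero i
        unfold ev at h2
        rw [Finsupp.sum] at h2
        rw [AddSubmonoidClass.coe_finsetSum]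
        exact h2
      have h2 := congrArg φ h1
      rw [map_zero, map_sum] at h2
      unfold ev
      rw [Finsupp.sum, ← h2]
      refine Finset.sum_congr rfl fun m _ => ?_
      rw [map_mul, AlgHom.commutes, hθ]
      rfl
    have h3 := kk_unique hC χ' huniq θ h0 hz m
    have h4 := hφ ⟨χ (Multiplicative.ofAdd m), hχB _⟩
    rw [← hθ, h3, hχ'] at h4
    exact (isAlgebraic_algebraMap_iff (algebraMap K (AlgebraicClosure K)).injective).mp h4
  have : Algebra.IsAlgebraic K0 K := by
    have h1 : IntermediateField.adjoin ℂ (Set.range χ)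
        ≤ (algebraicClosure K0 K).restrictScalars ℂ := by
      rw [IntermediateField.adjoin_le_iff]
      rintro x ⟨a, rfl⟩
      show χ a ∈ algebraicClosure K0 K
      rw [mem_algebraicClosure_iff]
      exact halg (Multiplicative.toAdd a)
    rw [hgen] at h1
    refine ⟨fun x => ?_⟩
    rw [← mem_algebraicClosure_iff]
    exact h1 (show x ∈ (⊤ : IntermediateField ℂ K) from trivial)
  have : Algebra.IsAlgebraic K0 (AlgebraicClosure K) :=
    Algebra.IsAlgebraic.trans K0 K (AlgebraicClosure K)
  have : CharZero K0 := charZero_of_injective_algebraMap (algebraMap ℂ K0).injective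
  have : IsAlgClosure K0 (AlgebraicClosure K) := ⟨inferInstance, inferInstance⟩
  have : IsGalois K0 (AlgebraicClosure K) := inferInstance
  have hK : ∀ m : M, χ (Multiplicative.ofAdd m) ∈ K0 := by
    intro m
    have h1 : χ' (Multiplicative.ofAdd m) ∈ (⊥ : IntermediateField K0 (AlgebraicClosure K)) := by
      rw [InfiniteGalois.mem_bot_iff_fixed]
      intro σ
      have hC' : ∀ c : ℂ, σ (algebraMap ℂ (AlgebraicClosure K) c)
          = algebraMap ℂ (AlgebraicClosure K) c := by
        intro c
        rw [IsScalarTower.algebraMap_apply ℂ K0 (AlgebraicClosure K) c]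
        exact σ.commutes _
      refine kk_unique hC χ' huniq ((σ : AlgebraicClosure K →* AlgebraicClosure K).comp χ') ?_ ?_ m
      · intro m hm
        have h2 : χ' (Multiplicative.ofAdd m)
            = algebraMap K0 (AlgebraicClosure K) ⟨χ (Multiplicative.ofAdd m), hmem m hm⟩ := by
          rw [hχ']
          rfl
        rw [h2]
        show σ (χ' (Multiplicative.ofAdd m)) = _
        rw [h2]
        exact σ.commutes _
      · intro i
        have h2 : ev χ' (f i) = 0 := by
          have h3 := congrArg (algebraMap K (AlgebraicClosure K)) (hzero i)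
          unfold ev at h3 ⊢
          rw [Finsupp.sum] at h3 ⊢
          rw [map_zero, map_sum] at h3
          rw [← h3]
          refine Finset.sum_congr rfl fun m _ => ?_
          rw [map_mul, hχ', ← IsScalarTower.algebraMap_apply]
        have h3 := congrArg σ h2
        unfold ev at h3 ⊢
        rw [Finsupp.sum] at h3 ⊢
        rw [map_zero, map_sum] at h3
        rw [← h3]
        refine Finset.sum_congr rfl fun m _ => ?_
        rw [map_mul, hC']
        rfl
    obtain ⟨z, hz⟩ := IntermediateField.mem_bot.mp h1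
    rw [hχ'] at hz
    have h2 : (z : K) = χ (Multiplicative.ofAdd m) :=
      (algebraMap K (AlgebraicClosure K)).injective hz
    rw [← h2]
    exact z.2
  rw [eq_top_iff, ← hgen, IntermediateField.adjoin_le_iff]
  rintro x ⟨a, rfl⟩
  exact hK (Multiplicative.toAdd a)

end T1
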